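import Pool.Agent.H79.BN.Targets

/-!
# Rule for a vertex
-/

open MeasureTheory Set Filter Topology Pool.Agent.H93.BL Pool.Agent.H79.BN

namespace Pool.Agent.H77.BN

theorem rv (hrm : T_RM) (hx1 : T_X1) : T_RV := by
  intro n _ w E X d s hn hw hcr h1 h2 hA hB τ
  have hd : d ≠ 0 := by
    rintro rfl
    simp [cr] at h2
  apply hrm n w E (X + (τ : ℂ) * d) d hn hw hd
  intro s' hs' t _ hseg hle
  have he : X + (τ : ℂ) * d + (t : ℂ) * d = X + ((τ + t : ℝ) : ℂ) * d := by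
    push_cast
    ring
  rw [he] at hseg ⊢
  obtain ⟨-, h3, -, -⟩ := hx1 n w hn hw X d s s' (τ + t) hseg hle
  obtain ⟨h4, h5⟩ := h3 hcr h1 h2
  rw [h5]
  rcases h4 with h4 | h4
  · subst h4
    exact hA.resolve_left hs'
  · subst h4
    exact hB.resolve_left hs'

end Pool.Agent.H77.BN
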