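import Pool.Agent.H79.BN.Targets

/-!
# Strict convexity is stable
-/

open MeasureTheory Set Filter Topology Pool.Agent.H93.BL Pool.Agent.H79.BN

namespace Pool.Agent.H77.BN

theorem v4 : T_V4 := by
  intro n _ w hw
  have hev : ∀ᶠ p in 𝓝 w, ∀ i j, j ≠ i → j ≠ i + 1 → 0 < cr (ed p i) (p j - p i) := by
    rw [eventually_all]
    intro i
    rw [eventually_all]
    intro j
    have hcont : Continuous fun p : Fin n → ℂ => cr (ed p i) (p j - p i) := by
      unfold cr ed
      fun_prop
    by_cases hj : j ≠ i ∧ j ≠ i + 1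
    · filter_upwards [hcont.continuousAt.eventually (lt_mem_nhds (hw i j hj.1 hj.2))] with p hp
      intro _ _
      exact hp
    · refine Eventually.of_forall fun p h1 h2 => ?_
      exact absurd ⟨h1, h2⟩ hj
  obtain ⟨ε, hε, hball⟩ := Metric.eventually_nhds_iff_ball.1 hev
  refine ⟨ε, hε, fun p hp => hball p ?_⟩
  rw [Metric.mem_ball, dist_pi_lt_iff hε]
  intro i
  rw [dist_eq_norm]
  exact hp i

end Pool.Agent.H77.BN
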